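import Pool.Agent.Work.MP_f3e7a9_tp.Main
import Pool.Agent.Work.MP_f3e7a9_wc.B_INE

/-!
Collectionwise Hausdorff reflection at a weakly compact cardinal for points of small tightness and
for `P`-points of order `κ`.
-/

namespace Pool.Agent.Results.MP_f3e7a9_gt.SmallTightness

open Pool.Agent.Work.MP_f3e7a9_wc Pool.Agent.Work.MP_f3e7a9_tp Cardinal Set

/-- Let `κ` be regular uncountable and ineffable or, more generally, weakly compact (in the sense
of `WCpt`). Let `X` be a `T₁` normal space in which closed discrete sets of fewer than `κ` points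
are separated, and `D` a closed discrete subset, `|D| ≤ κ`, with character `≤ κ` at its points.
If every point of `D` has tightness `< κ` or is a `P_κ`-point then `D` is separated. -/
theorem result (κ : Cardinal.{0}) (h0 : ℵ₀ < κ) (hr : κ.IsRegular) (hκ : Ineff κ ∨ WCpt κ)
    (X : Type) [TopologicalSpace X] [T4Space X] (hCW : CW κ X)
    (D : Set X) (hD : IsClosed D) (hdis : DiscreteTopology ↥D) (hle : #↥D ≤ κ)
    (hchar : ∀ x ∈ D, ∃ N : Set (Set X), #↥N ≤ κ ∧ (nhds x).HasBasis (fun s => s ∈ N) id)
    (h : ∀ x ∈ D, TightLt κ x ∨ PPt κ x) :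
    ∃ W : X → Set X, (∀ x ∈ D, IsOpen (W x) ∧ x ∈ W x) ∧ D.PairwiseDisjoint W := by
  have hW : WCpt κ := by
    rcases hκ with h1 | h1
    · exact p_INE κ h0 hr h1
    · exact h1
  exact main κ h0 hr hW X hCW D hD hdis hle hchar h

end Pool.Agent.Results.MP_f3e7a9_gt.SmallTightness
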