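import Pool.Agent.Work.MP_f3e7a9_gt.Topo

/-!
Closed discrete sets of size `κ` in `<κ`-collectionwise Hausdorff normal spaces of character at
most `κ` are separated modulo the subtle ideal.
-/

namespace Pool.Agent.Results.MP_f3e7a9_gt.SubtleIdeal

open Pool.Agent.Work.MP_f3e7a9_gt Cardinal Set

/-- Let `κ` be regular uncountable (for instance ineffable), `X` a `T₁` normal space of character
`≤ κ` that is `<κ`-collectionwise Hausdorff, and `{d α : α < κ}` a closed discrete subset, listed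
without repetitions. There is `E ⊆ κ` which is not subtle such that `{d α : α ∈ κ \ E}` is
separated; and if `{d α : α ∈ E}` is separated, then so is `{d α : α < κ}`. -/
theorem result (κ : Cardinal.{0}) (h0 : ℵ₀ < κ) (hr : κ.IsRegular)
    (X : Type) [TopologicalSpace X] [T4Space X]
    (hchar : ∀ x : X, ∃ N : Set (Set X), #↥N ≤ κ ∧ (nhds x).HasBasis (fun s => s ∈ N) id)
    (hcw : ∀ D : Set X, IsClosed D → DiscreteTopology ↥D → #↥D < κ →
      ∃ U : X → Set X, (∀ d ∈ D, IsOpen (U d) ∧ d ∈ U d) ∧ D.PairwiseDisjoint U)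
    (d : Ordinal.{0} → X) (hd : InjOn d (Iio κ.ord))
    (hcl : IsClosed (d '' Iio κ.ord)) (hdis : DiscreteTopology ↥(d '' Iio κ.ord)) :
    ∃ E ⊆ Iio κ.ord, ¬ SubtleOn κ E ∧
      (∃ W : X → Set X, (∀ x ∈ d '' (Iio κ.ord \ E), IsOpen (W x) ∧ x ∈ W x) ∧
        (d '' (Iio κ.ord \ E)).PairwiseDisjoint W) ∧
      ((∃ W : X → Set X, (∀ x ∈ d '' E, IsOpen (W x) ∧ x ∈ W x) ∧ (d '' E).PairwiseDisjoint W) →
        ∃ W : X → Set X, (∀ x ∈ d '' Iio κ.ord, IsOpen (W x) ∧ x ∈ W x) ∧
          (d '' Iio κ.ord).PairwiseDisjoint W) := by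
  classical
  -- subsets of a closed discrete set are closed and discrete
  have hcl' : ∀ S ⊆ Iio κ.ord, IsClosed (d '' S) := by
    intro S hS
    have h1 : IsClosed ((Subtype.val : ↥(d '' Iio κ.ord) → X) ⁻¹' (d '' S)) :=
      isClosed_discrete _
    have h2 := hcl.isClosedEmbedding_subtypeVal.isClosedMap _ h1
    rwa [Subtype.image_preimage_coe, inter_eq_self_of_subset_right (image_mono hS)] at h2
  have hdis' : ∀ S ⊆ Iio κ.ord, DiscreteTopology ↥(d '' S) := by
    intro S hS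
    exact DiscreteTopology.of_subset hdis (image_mono hS)
  -- neighbourhood bases indexed by ordinals below `κ`
  have hU : ∀ α : Ordinal.{0}, ∃ u : Ordinal.{0} → Set X, (∀ i, IsOpen (u i) ∧ d α ∈ u i) ∧
      ∀ V : Set X, IsOpen V → d α ∈ V → ∃ i < κ.ord, u i ⊆ V := by
    intro α
    obtain ⟨N, hN, hb⟩ := hchar (d α)
    have hle : Cardinal.lift.{1} #↥N ≤ #(Iio κ.ord) := by
      rw [Cardinal.mk_Iio_ordinal, card_ord, Cardinal.lift_le]
      exact hN
    obtain ⟨e⟩ := Cardinal.lift_mk_le'.1 (by simpa using hle : Cardinal.lift.{1} #↥N ≤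
      Cardinal.lift.{0} #(Iio κ.ord))
    refine ⟨fun i => if h : ∃ s : N, (e s : Ordinal.{0}) = i then interior (h.choose : Set X)
      else univ, fun i => ?_, fun V hV hmem => ?_⟩
    · dsimp only
      split_ifs with h
      · exact ⟨isOpen_interior, mem_interior_iff_mem_nhds.2 (hb.mem_of_mem h.choose.2)⟩
      · exact ⟨isOpen_univ, mem_univ _⟩
    · obtain ⟨s, hs, hsV⟩ := hb.mem_iff.1 (hV.mem_nhds hmem)
      refine ⟨e ⟨s, hs⟩, (e ⟨s, hs⟩).2, ?_⟩
      have h : ∃ s' : N, (e s' : Ordinal.{0}) = e ⟨s, hs⟩ := ⟨⟨s, hs⟩, rfl⟩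
      dsimp only
      rw [dif_pos h]
      have h1 : h.choose = ⟨s, hs⟩ := e.injective (Subtype.ext h.choose_spec)
      rw [h1]
      exact interior_subset.trans hsV
  choose u hu1 hu2 using hU
  obtain ⟨H, hH, hsub, W, hW1, hW2⟩ := separated_mod h0 hr hcw d hd hcl' hdis'
    (fun i α => u α i) (fun α _ i => hu1 α i) (fun α _ => hu2 α)
  have hcomp : Iio κ.ord \ (Iio κ.ord \ H) = H := by
    rw [sdiff_sdiff_right_self]
    exact inter_eq_right.2 hH
  refine ⟨Iio κ.ord \ H, sdiff_subset, hsub, ⟨W, ?_, ?_⟩, ?_⟩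
  · rw [hcomp]; exact hW1
  · rw [hcomp]; exact hW2
  · rintro ⟨W', hW1', hW2'⟩
    have hdisj : Disjoint (d '' H) (d '' (Iio κ.ord \ H)) := by
      rw [Set.disjoint_left]
      rintro _ ⟨a, ha, rfl⟩ ⟨b, hb, hab⟩
      have := hd hb.1 (hH ha) hab
      subst this
      exact hb.2 ha
    obtain ⟨V1, V0, hV1, hV0, hA1, hA0, hV⟩ := normal_separation (hcl' H hH)
      (hcl' _ sdiff_subset) hdisj
    refine ⟨fun x => if x ∈ d '' H then W x ∩ V1 else W' x ∩ V0, ?_, ?_⟩
    · intro x hx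
      by_cases h : x ∈ d '' H
      · simp only [if_pos h]
        exact ⟨(hW1 x h).1.inter hV1, (hW1 x h).2, hA1 h⟩
      · have h' : x ∈ d '' (Iio κ.ord \ H) := by
          obtain ⟨a, ha, rfl⟩ := hx
          exact ⟨a, ⟨ha, fun h2 => h ⟨a, h2, rfl⟩⟩, rfl⟩
        simp only [if_neg h]
        exact ⟨(hW1' x h').1.inter hV0, (hW1' x h').2, hA0 h'⟩
    · have hmem : ∀ x ∈ d '' Iio κ.ord, x ∉ d '' H → x ∈ d '' (Iio κ.ord \ H) := by
        rintro _ ⟨a, ha, rfl⟩ h
        exact ⟨a, ⟨ha, fun h2 => h ⟨a, h2, rfl⟩⟩, rfl⟩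
      intro x hx y hy hne
      simp only [Function.onFun]
      by_cases h : x ∈ d '' H <;> by_cases h2 : y ∈ d '' H
      · rw [if_pos h, if_pos h2]
        exact (hW2 h h2 hne).mono inter_subset_left inter_subset_left
      · rw [if_pos h, if_neg h2]
        exact hV.mono inter_subset_right inter_subset_right
      · rw [if_neg h, if_pos h2]
        exact hV.symm.mono inter_subset_right inter_subset_right
      · rw [if_neg h, if_neg h2]
        exact (hW2' (hmem x hx h) (hmem y hy h2) hne).mono inter_subset_left inter_subset_left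

end Pool.Agent.Results.MP_f3e7a9_gt.SubtleIdeal
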