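import Pool.Agent.Work.MP_f3e7a9_gt.Base
import Pool.Agent.Work.MP_f3e7a9_gt.Ladder

/-!
An affirmative answer at `κ` excludes uniformization for ladder systems on stationary sets of
singular ordinals below `κ`.
-/

namespace Pool.Agent.Results.MP_f3e7a9_gt.Uniformization

open Pool.Agent.Work.MP_f3e7a9_gt Cardinal Set

/-- Let `κ` be regular uncountable (for instance ineffable) and suppose that every `T₁` normal
space of character `≤ κ` that is `<κ`-collectionwise Hausdorff is `κ`-collectionwise Hausdorff.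
Let `μ < κ` be a limit ordinal, `S ⊆ κ` stationary, and for `δ ∈ S` let `(η δ m)_{m < μ}` be
increasing and cofinal in `δ`. Then this ladder system does not have the `2`-uniformization
property: some `A ⊆ S` is such that for every set `h` of ordinals there is `δ ∈ S` with
`η δ m ∈ h ↔ δ ∈ A` failing for cofinally many `m < μ`. -/
theorem result (κ : Cardinal.{0}) (h0 : ℵ₀ < κ) (hr : κ.IsRegular)
    (hQ : ∀ (X : Type) [TopologicalSpace X] [T4Space X],
      (∀ x : X, ∃ N : Set (Set X), #↥N ≤ κ ∧ (nhds x).HasBasis (fun s => s ∈ N) id) →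
      (∀ D : Set X, IsClosed D → DiscreteTopology ↥D → #↥D < κ →
        ∃ U : X → Set X, (∀ d ∈ D, IsOpen (U d) ∧ d ∈ U d) ∧ D.PairwiseDisjoint U) →
      ∀ D : Set X, IsClosed D → DiscreteTopology ↥D → #↥D ≤ κ →
        ∃ U : X → Set X, (∀ d ∈ D, IsOpen (U d) ∧ d ∈ U d) ∧ D.PairwiseDisjoint U)
    (μ : Ordinal.{0}) (hμ : Order.IsSuccLimit μ) (hμκ : μ < κ.ord)
    (S : Set Ordinal.{0}) (hS : S ⊆ Iio κ.ord)
    (hst : ∀ C : Set Ordinal.{0}, IsClubIn κ C → (C ∩ S).Nonempty)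
    (η : Ordinal.{0} → Ordinal.{0} → Ordinal.{0})
    (hη : ∀ δ ∈ S, StrictMonoOn (η δ) (Iio μ) ∧ (∀ m < μ, η δ m < δ) ∧
      ∀ γ < δ, ∃ m < μ, γ < η δ m) :
    ∃ A ⊆ S, ∀ h : Set Ordinal.{0}, ∃ δ ∈ S, ∀ n < μ, ∃ m, n ≤ m ∧ m < μ ∧
      ¬ (η δ m ∈ h ↔ δ ∈ A) := by
  classical
  by_contra hcon
  push Not at hcon
  let c : κ.ord.ToType → Ordinal.{0} := fun i => (Ordinal.ToType.toOrd i : Ordinal.{0})
  have hcκ : ∀ i, c i < κ.ord := fun i => (Ordinal.ToType.toOrd i).2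
  have hclt : ∀ i j, c i < c j ↔ i < j := fun i j => by
    change (Ordinal.ToType.mk.symm i : Ordinal.{0}) < (Ordinal.ToType.mk.symm j : Ordinal.{0}) ↔ _
    rw [Subtype.coe_lt_coe]
    exact Ordinal.ToType.mk.symm.lt_iff_lt
  have hcinj : Function.Injective c := fun i j h => by
    rcases lt_trichotomy i j with h1 | h1 | h1
    · exact absurd h ((hclt i j).2 h1).ne
    · exact h1
    · exact absurd h ((hclt j i).2 h1).ne'
  let mk : (x : Ordinal.{0}) → x < κ.ord → κ.ord.ToType := fun x hx => Ordinal.ToType.mk ⟨x, hx⟩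
  have hcm : ∀ x hx, c (mk x hx) = x := fun x hx => by
    change (Ordinal.ToType.mk.symm (Ordinal.ToType.mk ⟨x, hx⟩) : Ordinal.{0}) = x
    rw [OrderIso.symm_apply_apply]
  -- the index set of the ladders
  let u : μ.ToType → Ordinal.{0} := fun i => (Ordinal.ToType.toOrd i : Ordinal.{0})
  have huμ : ∀ i, u i < μ := fun i => (Ordinal.ToType.toOrd i).2
  have hult : ∀ i j, u i < u j ↔ i < j := fun i j => by
    change (Ordinal.ToType.mk.symm i : Ordinal.{0}) < (Ordinal.ToType.mk.symm j : Ordinal.{0}) ↔ _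
    rw [Subtype.coe_lt_coe]
    exact Ordinal.ToType.mk.symm.lt_iff_lt
  have hule : ∀ i j, u i ≤ u j ↔ i ≤ j := fun i j => by
    rw [← not_lt, ← not_lt, hult]
  let mu : (x : Ordinal.{0}) → x < μ → μ.ToType := fun x hx => Ordinal.ToType.mk ⟨x, hx⟩
  have hum : ∀ x hx, u (mu x hx) = x := fun x hx => by
    change (Ordinal.ToType.mk.symm (Ordinal.ToType.mk ⟨x, hx⟩) : Ordinal.{0}) = x
    rw [OrderIso.symm_apply_apply]
  have hμ0 : (0 : Ordinal.{0}) < μ := pos_iff_ne_zero.2 (by simpa using hμ.ne_bot)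
  have : Nonempty μ.ToType := ⟨mu 0 hμ0⟩
  have : NoMaxOrder μ.ToType := ⟨fun i => ⟨mu (Order.succ (u i)) (hμ.succ_lt (huμ i)), by
    rw [← hult, hum]; exact Order.lt_succ _⟩⟩
  have hJ : #μ.ToType < κ := by
    rw [mk_toType]; exact lt_ord.1 hμκ
  let SI : Set κ.ord.ToType := {i | c i ∈ S}
  let ηI : κ.ord.ToType → μ.ToType → κ.ord.ToType := fun i m =>
    if h : c i ∈ S then mk (η (c i) (u m)) (((hη _ h).2.1 _ (huμ m)).trans (hcκ i)) else i
  have hηI : ∀ i ∈ SI, ∀ m, c (ηI i m) = η (c i) (u m) := fun i hi m => by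
    have hi' : c i ∈ S := hi
    simp only [ηI, dif_pos hi']
    exact hcm _ _
  have hinj : ∀ e ∈ SI, Function.Injective (ηI e) := fun e he m m' h => by
    have h1 := congrArg c h
    rw [hηI e he, hηI e he] at h1
    have h2 := (hη _ he).1.injOn (huμ m) (huμ m') h1
    rcases lt_trichotomy m m' with h3 | h3 | h3
    · exact absurd h2 ((hult _ _).2 h3).ne
    · exact h3
    · exact absurd h2 ((hult _ _).2 h3).ne'
  have hunif : ∀ A : Set κ.ord.ToType, ∃ h : Set κ.ord.ToType, ∀ δ ∈ SI, ∃ n, ∀ m, n ≤ m →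
      (ηI δ m ∈ h ↔ δ ∈ A) := by
    intro A
    obtain ⟨h, hh⟩ := hcon (c '' A ∩ S) inter_subset_right
    refine ⟨{a | c a ∈ h}, fun δ hδ => ?_⟩
    obtain ⟨n, hn0, hn⟩ := hh (c δ) hδ
    refine ⟨mu n hn0, fun m hm => ?_⟩
    have h1 := hn (u m) (by rw [← hule, hum] at hm; exact hm) (huμ m)
    rw [← hηI δ hδ m] at h1
    refine h1.trans ⟨?_, fun h2 => ⟨⟨δ, h2, rfl⟩, hδ⟩⟩
    rintro ⟨⟨δ', hδ', he⟩, _⟩
    rwa [← hcinj he]
  have hbd : ∀ T : Set κ.ord.ToType, #T < κ → ∃ ξ, ∀ t ∈ T, t ≤ ξ := by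
    intro T hT
    obtain ⟨b, hb, hb'⟩ := exists_bound hr (ι := ULift.{1} T) (by simpa using hT)
      (fun t => c t.down) (fun t => hcκ _)
    refine ⟨mk b hb, fun t ht => le_of_lt ?_⟩
    rw [← hclt, hcm]
    exact hb' ⟨⟨t, ht⟩⟩
  have hpress : ∀ n : κ.ord.ToType → μ.ToType, ∃ k a, ∀ β : κ.ord.ToType, ∃ e ∈ SI, β < e ∧
      n e = k ∧ ηI e k = a := by
    intro n
    by_contra hc
    push Not at hc
    choose β hβ using hc
    have hg : ∀ α : Ordinal.{0}, ∃ b, ∀ hα : α < κ.ord, b < κ.ord ∧ ∀ k, c (β k (mk α hα)) < b := by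
      intro α
      by_cases hα : α < κ.ord
      · obtain ⟨b, hb, hb'⟩ := exists_bound hr (ι := ULift.{1} μ.ToType)
          (by rw [mk_uLift]; exact Cardinal.lift_lt.2 hJ)
          (fun k => c (β k.down (mk α hα))) (fun k => hcκ _)
        exact ⟨b, fun _ => ⟨hb, fun k => hb' ⟨k⟩⟩⟩
      · exact ⟨0, fun h => absurd h hα⟩
    choose g hg using hg
    obtain ⟨δ, hδ, hδS⟩ := hst _ (club_cl h0 hr g fun α hα => (hg α hα).1)
    have hδκ : δ < κ.ord := hS hδS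
    have he : mk δ hδκ ∈ SI := by
      change c (mk δ hδκ) ∈ S
      rw [hcm]; exact hδS
    have h1 : c (ηI (mk δ hδκ) (n (mk δ hδκ))) = η δ (u (n (mk δ hδκ))) := by
      rw [hηI _ he, hcm]
    have h2 : c (ηI (mk δ hδκ) (n (mk δ hδκ))) < δ := by
      rw [h1]; exact (hη δ hδS).2.1 _ (huμ _)
    have h3 := (hg _ (hcκ (ηI (mk δ hδκ) (n (mk δ hδκ))))).2 (n (mk δ hδκ))
    have h4 : mk (c (ηI (mk δ hδκ) (n (mk δ hδκ)))) (hcκ _) = ηI (mk δ hδκ) (n (mk δ hδκ)) :=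
      hcinj (hcm _ _)
    rw [h4] at h3
    have h5 := h3.trans (hδ.2.2 _ h2)
    refine hβ (n (mk δ hδκ)) (ηI (mk δ hδκ) (n (mk δ hδκ))) (mk δ hδκ) he ?_ rfl rfl
    rw [← hclt, hcm]
    exact h5
  have hn := Pt.normal hunif
  have ht1 := Pt.t1 hinj
  have ht4 : T4Space (Pt κ.ord.ToType μ.ToType SI ηI) := ⟨⟩
  refine Pt.D_not_separated hpress (hQ (Pt κ.ord.ToType μ.ToType SI ηI)
    (Pt.character h0 (by simp) hJ.le) (Pt.small_cwH hinj hbd) _ Pt.D_closed Pt.D_discrete ?_)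
  exact mk_image_le.trans ((mk_set_le _).trans (by simp))

end Pool.Agent.Results.MP_f3e7a9_gt.Uniformization
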