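import Pool.Agent.Work.MP_f3e7a9_wc.Assembly
import Pool.Agent.Work.MP_f3e7a9_wc.B_SCW
import Pool.Agent.Work.MP_f3e7a9_wc.B_LFE
import Pool.Agent.Work.MP_f3e7a9_wc.B_EXP
import Pool.Agent.Work.MP_f3e7a9_wc.B_SIG
import Pool.Agent.Work.MP_f3e7a9_wc.B_LEM
import Pool.Agent.Work.MP_f3e7a9_wc.B_SPF
import Pool.Agent.Work.MP_f3e7a9_wc.B_INE
import Pool.Agent.Work.MP_f3e7a9_wc.B_ENU
import Pool.Agent.Work.MP_f3e7a9_wc.B_NRM
import Pool.Agent.Work.MP_f3e7a9_wc.B_CLO
import Pool.Agent.Work.MP_f3e7a9_wc.B_DRG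
import Pool.Agent.Work.MP_f3e7a9_wc.B_DIR
import Pool.Agent.Work.MP_f3e7a9_wc.B_DIR2
import Pool.Agent.Work.MP_f3e7a9_wc.B_LOF2
import Pool.Agent.Work.MP_f3e7a9_wc.B_CDF2
import Pool.Agent.Work.MP_f3e7a9_wc.B_CLH
import Pool.Agent.Work.MP_f3e7a9_wc.B_REF2
import Pool.Agent.Work.MP_f3e7a9_wc.B_COR2
import Pool.Agent.Work.MP_f3e7a9_wc.B_MNA2
import Pool.Agent.Work.MP_f3e7a9_wc.B_KH

/-!
Collectionwise Hausdorff reflection at a weakly compact cardinal for points which lie in compact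
scattered sets of small character.
-/

namespace Pool.Agent.Results.MP_f3e7a9_gt.WeaklyCompactScattered

open Pool.Agent.Work.MP_f3e7a9_wc Cardinal Set

/-- Let `κ` be regular uncountable and ineffable or, more generally, weakly compact (in the sense
of `WCpt`). Let `X` be a `T₁` normal space and `D` a closed discrete subset, `|D| ≤ κ`, with
character `≤ κ` at its points. Let `μ < κ` and let every point `p` of some open set `U ⊇ D` lie in
a compact set `H p` which has character `≤ μ` in `X` or is a neighbourhood of `p`. Suppose that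
either closed discrete sets of fewer than `κ` points are separated and the `H x` (`x ∈ D`) are
scattered, or that discrete families of fewer than `κ` compact sets `Y x ⊆ H x` (`x ∈ D`) have
disjoint open expansions. Then `D` is separated. -/
theorem result (κ : Cardinal.{0}) (h0 : ℵ₀ < κ) (hr : κ.IsRegular) (hκ : Ineff κ ∨ WCpt κ)
    (X : Type) [TopologicalSpace X] [T4Space X]
    (D : Set X) (hD : IsClosed D) (hdis : DiscreteTopology ↥D) (hle : #↥D ≤ κ)
    (hchar : ∀ x ∈ D, ∃ N : Set (Set X), #↥N ≤ κ ∧ (nhds x).HasBasis (fun s => s ∈ N) id)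
    (μ : Cardinal.{0}) (hμ : μ < κ) (U : Set X) (hU : IsOpen U) (hDU : D ⊆ U) (H : X → Set X)
    (hH : ∀ p ∈ U, IsCompact (H p) ∧ p ∈ H p ∧ (CharLe μ (H p) ∨ H p ∈ nhds p))
    (h : (CW κ X ∧ ∀ x ∈ D, Scat (H x)) ∨ SepFam κ X D H) :
    ∃ W : X → Set X, (∀ x ∈ D, IsOpen (W x) ∧ x ∈ W x) ∧ D.PairwiseDisjoint W := by
  have hCOR : Stmt_COR2 := p_COR2 (p_CLO p_LFE) p_DRG p_CLH (p_CDF2 p_LOF2) (p_DIR2 p_DIR) p_REF2
  have hMNA : Stmt_MNA2 := p_MNA2 hCOR
  have hSPF : Stmt_SPF := p_SPF p_SCW (p_EXP p_LFE) (p_LEM p_SIG)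
  have hNRM : Stmt_NRM := p_NRM p_ENU
  have hW : WCpt κ := by
    rcases hκ with h1 | h1
    · exact p_INE κ h0 hr h1
    · exact h1
  exact main_mixed hNRM hMNA hSPF p_KH κ h0 hr hW X D hD hdis hle hchar μ hμ U hU hDU H hH h.symm

end Pool.Agent.Results.MP_f3e7a9_gt.WeaklyCompactScattered
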